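import Pool.Agent.R284.RC.Stm
import Pool.Agent.Helper88.RB.P_exists_bdd

set_option autoImplicit false
open MeasureTheory Set Filter Topology
open scoped ENNReal NNReal

namespace Pool.Agent.R577.RC

open Pool.Agent.R284.RC

/-! Project RC, piece AVG: averages over small balls. -/

lemma base {n : ℕ} {q : ℝ} (hq : 0 < q) (hqn : q < n) :
    ∃ (l0 : Measure (E n)) (M : ℝ≥0∞), IsProbabilityMeasure l0 ∧
      l0 (Metric.closedBall 0 1)ᶜ = 0 ∧ M ≠ ⊤ ∧ ∀ v, ∫⁻ w, (edist w v) ^ (-q) ∂l0 ≤ M := by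
  obtain ⟨σ, h1, h2, M, hM, h3⟩ := Pool.Agent.Helper88.RB.exists_bdd (n := n) hq hqn
    (K := Metric.closedBall (0 : E n) 1)
    ⟨0, Metric.ball_subset_interior_closedBall (Metric.mem_ball_self one_pos)⟩
  refine ⟨σ, M, ⟨h1⟩, h2, hM, fun v => le_trans (le_of_eq ?_) (h3 v)⟩
  unfold Pool.Agent.Helper88.RB.PE
  refine lintegral_congr fun w => ?_
  rw [edist_comm, edist_dist]

/-- dilated measure -/
noncomputable def lam {n : ℕ} (l0 : Measure (E n)) (x0 : E n) (r : ℝ) : Measure (E n) :=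
  l0.map (fun w => x0 + r • w)

lemma aff_meas {n : ℕ} (x0 : E n) (r : ℝ) : Measurable (fun w : E n => x0 + r • w) :=
  (measurable_id.const_smul r).const_add x0

lemma ke_meas {n : ℕ} (p : ℝ) : Measurable (fun z : E n × E n => ke p z.1 z.2) := by
  unfold ke kr
  refine Measurable.ite (measurableSet_eq_fun measurable_fst measurable_snd) measurable_const ?_
  refine ENNReal.measurable_ofReal.comp ?_
  refine Measurable.abs ?_
  split_ifs
  · exact (Real.measurable_log.comp (measurable_fst.dist measurable_snd)).neg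
  · exact (measurable_fst.dist measurable_snd).pow_const _

lemma kr_meas {n : ℕ} (p : ℝ) : Measurable (fun z : E n × E n => kr p z.1 z.2) := by
  unfold kr
  split_ifs
  · exact (Real.measurable_log.comp (measurable_fst.dist measurable_snd)).neg
  · exact (measurable_fst.dist measurable_snd).pow_const _

lemma kr_le_ke {n : ℕ} (p : ℝ) (x y : E n) : ‖kr p x y‖ₑ ≤ ke p x y := by
  unfold ke
  split_ifs
  · exact le_top
  · rw [← ofReal_norm, Real.norm_eq_abs]

lemma ke_pos_eq {n : ℕ} {p : ℝ} (hp : 0 < p) (x y : E n) : ke p x y = (edist x y) ^ (-p) := by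
  unfold ke kr
  split_ifs with h h2
  · subst h
    rw [edist_self, ENNReal.zero_rpow_of_neg (by linarith)]
  · exact absurd h2 hp.ne'
  · have hd : 0 < dist x y := dist_pos.2 h
    rw [abs_of_nonneg (Real.rpow_nonneg dist_nonneg _), edist_dist, ENNReal.ofReal_rpow_of_pos hd]

lemma log_bd {s t : ℝ} (hs : 0 < s) (ht : 0 < t) : |Real.log t| ≤ 1 / s * t ^ (-s) + t := by
  have h1 : Real.log t ≤ t - 1 := Real.log_le_sub_one_of_pos ht
  have h2 : 0 < t ^ (-s) := Real.rpow_pos_of_pos ht _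
  have h3 : Real.log (t ^ (-s)) ≤ t ^ (-s) - 1 := Real.log_le_sub_one_of_pos h2
  rw [Real.log_rpow ht] at h3
  have h4 : -Real.log t ≤ 1 / s * t ^ (-s) := by
    rw [one_div, le_inv_mul_iff₀ hs]
    linarith
  rw [abs_le]
  have h5 : 0 < 1 / s * t ^ (-s) := by positivity
  constructor <;> linarith

lemma rpow_cmp {s q : ℝ} (hs : 0 < s) (hsq : s ≤ q) (e : ℝ≥0∞) : e ^ (-s) ≤ e ^ (-q) + 1 := by
  rcases le_total e 1 with h | h
  · exact (ENNReal.rpow_le_rpow_of_exponent_ge h (by linarith)).trans le_self_add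
  · exact (ENNReal.rpow_le_one_of_one_le_of_neg h (by linarith)).trans le_add_self

lemma rpow_anti {s : ℝ} (hs : 0 < s) {a b : ℝ≥0∞} (h : a ≤ b) : b ^ (-s) ≤ a ^ (-s) := by
  rw [ENNReal.rpow_neg, ENNReal.rpow_neg, ENNReal.inv_le_inv]
  exact ENNReal.rpow_le_rpow h hs.le

lemma pw {n : ℕ} {p s : ℝ} (hp : 0 ≤ p) (hps : p < s) (x y : E n) :
    ke p x y ≤ (ENNReal.ofReal (1 / s) + 1) * (edist x y) ^ (-s) + 1 + edist x y := by
  have hs : 0 < s := lt_of_le_of_lt hp hps
  rcases eq_or_lt_of_le hp with h0 | hp0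
  · subst h0
    unfold ke kr
    rw [if_pos rfl]
    split_ifs with h
    · subst h
      rw [edist_self, ENNReal.zero_rpow_of_neg (by linarith), ENNReal.mul_top (by simp)]
      simp
    · have hd : 0 < dist x y := dist_pos.2 h
      rw [abs_neg, edist_dist, ENNReal.ofReal_rpow_of_pos hd]
      refine (ENNReal.ofReal_le_ofReal (log_bd hs hd)).trans ?_
      rw [ENNReal.ofReal_add (by positivity) hd.le, ENNReal.ofReal_mul (by positivity)]
      refine add_le_add ?_ le_rfl
      refine le_trans ?_ le_self_add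
      exact mul_le_mul_left le_self_add _
  · rw [ke_pos_eq hp0]
    refine (rpow_cmp hp0 hps.le _).trans ?_
    refine le_trans ?_ le_self_add
    refine add_le_add ?_ le_rfl
    calc (edist x y) ^ (-s) = 1 * (edist x y) ^ (-s) := (one_mul _).symm
      _ ≤ _ := mul_le_mul_left le_add_self _

lemma dist_scale {n : ℕ} (x0 : E n) {r : ℝ} (hr : 0 < r) (w y : E n) :
    dist (x0 + r • w) y = r * dist w (r⁻¹ • (y - x0)) := by
  rw [dist_eq_norm, dist_eq_norm]
  have h1 : x0 + r • w - y = r • (w - r⁻¹ • (y - x0)) := by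
    rw [smul_sub, smul_smul, mul_inv_cancel₀ hr.ne', one_smul]
    abel
  rw [h1, norm_smul, Real.norm_of_nonneg hr.le]

lemma edist_scale {n : ℕ} (x0 : E n) {r : ℝ} (hr : 0 < r) (w y : E n) :
    edist (x0 + r • w) y = ENNReal.ofReal r * edist w (r⁻¹ • (y - x0)) := by
  rw [edist_dist, edist_dist, dist_scale x0 hr, ENNReal.ofReal_mul hr.le]

section

variable {n : ℕ} {q : ℝ} {l0 : Measure (E n)} {M : ℝ≥0∞}

lemma lint (l0 : Measure (E n)) (x0 : E n) (r : ℝ) {f : E n → ℝ≥0∞} (hf : Measurable f) :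
    ∫⁻ x, f x ∂(lam l0 x0 r) = ∫⁻ w, f (x0 + r • w) ∂l0 :=
  lintegral_map hf (aff_meas x0 r)

lemma lam_prob [IsProbabilityMeasure l0] (x0 : E n) (r : ℝ) : IsProbabilityMeasure (lam l0 x0 r) :=
  Measure.isProbabilityMeasure_map (aff_meas x0 r).aemeasurable

lemma ball_mem (x0 : E n) {r : ℝ} (hr : 0 < r) {w : E n} (hw : w ∈ Metric.closedBall (0 : E n) 1) :
    dist (x0 + r • w) x0 ≤ r := by
  rw [mem_closedBall_zero_iff] at hw
  rw [dist_eq_norm, add_sub_cancel_left, norm_smul, Real.norm_of_nonneg hr.le]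
  nlinarith

lemma ae_ball (h2 : l0 (Metric.closedBall 0 1)ᶜ = 0) :
    ∀ᵐ w ∂l0, w ∈ Metric.closedBall (0 : E n) 1 := h2

lemma lam_supp (h2 : l0 (Metric.closedBall 0 1)ᶜ = 0) (x0 : E n) {r : ℝ} (hr : 0 < r) :
    lam l0 x0 r (Metric.closedBall x0 r)ᶜ = 0 := by
  unfold lam
  rw [Measure.map_apply (aff_meas x0 r) Metric.isClosed_closedBall.measurableSet.compl]
  refine measure_mono_null ?_ h2
  intro w hw hw'
  exact hw (Metric.mem_closedBall.2 (ball_mem x0 hr hw'))

lemma pot_bd (hM : ∀ v, ∫⁻ w, (edist w v) ^ (-q) ∂l0 ≤ M) (x0 : E n) {r : ℝ}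
    (hr : 0 < r) (y : E n) :
    ∫⁻ x, (edist x y) ^ (-q) ∂(lam l0 x0 r) ≤ (ENNReal.ofReal r) ^ (-q) * M := by
  have hm : Measurable (fun x : E n => (edist x y) ^ (-q)) :=
    (measurable_id.edist measurable_const).pow_const _
  rw [lint l0 x0 r hm]
  simp only [edist_scale x0 hr]
  have h1 : ∀ w : E n, (ENNReal.ofReal r * edist w (r⁻¹ • (y - x0))) ^ (-q) =
      (ENNReal.ofReal r) ^ (-q) * (edist w (r⁻¹ • (y - x0))) ^ (-q) := fun w =>
    ENNReal.mul_rpow_of_ne_top ENNReal.ofReal_ne_top (edist_ne_top _ _) _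
  simp only [h1]
  have hm' : Measurable (fun w : E n => (edist w (r⁻¹ • (y - x0))) ^ (-q)) :=
    (measurable_id.edist measurable_const).pow_const _
  rw [lintegral_const_mul _ hm']
  exact mul_le_mul_right (hM _) _

lemma pot_bd' [IsProbabilityMeasure l0] {s : ℝ} (hs : 0 < s) (hsq : s ≤ q)
    (hM : ∀ v, ∫⁻ w, (edist w v) ^ (-q) ∂l0 ≤ M) (v : E n) :
    ∫⁻ w, (edist w v) ^ (-s) ∂l0 ≤ M + 1 := by
  refine (lintegral_mono fun w => rpow_cmp hs hsq _).trans ?_
  rw [lintegral_add_right _ measurable_const, lintegral_const, measure_univ, mul_one]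
  exact add_le_add (hM v) le_rfl

lemma energy_bd [IsProbabilityMeasure l0] {p s : ℝ} (hp : 0 ≤ p) (hps : p < s) (hsq : s ≤ q)
    (h2 : l0 (Metric.closedBall 0 1)ᶜ = 0)
    (hM : ∀ v, ∫⁻ w, (edist w v) ^ (-q) ∂l0 ≤ M) (x0 : E n) {r : ℝ} (hr : 0 < r) (hr1 : r ≤ 1)
    (x : E n) (hx : dist x x0 ≤ r) :
    ∫⁻ y, ke p x y ∂(lam l0 x0 r) ≤
      ((ENNReal.ofReal (1 / s) + 1) * (M + 1) + 3) * (ENNReal.ofReal r) ^ (-s) := by
  have hs : 0 < s := lt_of_le_of_lt hp hps
  have hm : Measurable (fun y : E n => (edist x y) ^ (-s)) :=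
    (measurable_const.edist measurable_id).pow_const _
  have h3 : ∀ᵐ y ∂(lam l0 x0 r), ke p x y ≤
      (ENNReal.ofReal (1 / s) + 1) * (edist x y) ^ (-s) + 3 := by
    have h4 : ∀ᵐ y ∂(lam l0 x0 r), y ∈ Metric.closedBall x0 r := lam_supp h2 x0 hr
    filter_upwards [h4] with y hy
    refine (pw hp hps x y).trans ?_
    rw [add_assoc]
    refine add_le_add le_rfl ?_
    have h5 : edist x y ≤ 2 := by
      rw [edist_dist]
      have h6 : dist x y ≤ 2 := by
        have := dist_triangle_right x y x0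
        rw [Metric.mem_closedBall] at hy
        linarith
      refine (ENNReal.ofReal_le_ofReal h6).trans (le_of_eq ?_)
      simp
    calc (1 : ℝ≥0∞) + edist x y ≤ 1 + 2 := add_le_add le_rfl h5
      _ = 3 := by norm_num
  have hprob := lam_prob (l0 := l0) x0 r
  refine (lintegral_mono_ae h3).trans ?_
  rw [lintegral_add_right _ measurable_const, lintegral_const_mul _ hm, lintegral_const,
    measure_univ, mul_one]
  have h7 : ∫⁻ y, (edist x y) ^ (-s) ∂(lam l0 x0 r) ≤ (ENNReal.ofReal r) ^ (-s) * (M + 1) := by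
    have h8 := pot_bd (pot_bd' hs hsq hM) x0 hr x
    refine le_trans (le_of_eq ?_) h8
    refine lintegral_congr fun y => ?_
    rw [edist_comm]
  have h9 : (1 : ℝ≥0∞) ≤ (ENNReal.ofReal r) ^ (-s) := by
    refine ENNReal.one_le_rpow_of_pos_of_le_one_of_neg (ENNReal.ofReal_pos.2 hr) ?_ (by linarith)
    rw [← ENNReal.ofReal_one]
    exact ENNReal.ofReal_le_ofReal hr1
  calc _ ≤ (ENNReal.ofReal (1 / s) + 1) * ((ENNReal.ofReal r) ^ (-s) * (M + 1)) +
        3 * (ENNReal.ofReal r) ^ (-s) := by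
        refine add_le_add (mul_le_mul_right h7 _) ?_
        calc (3 : ℝ≥0∞) = 3 * 1 := (mul_one _).symm
          _ ≤ _ := mul_le_mul_right h9 _
    _ = _ := by ring

lemma dom_pos [IsProbabilityMeasure l0] {p : ℝ} (hp : 0 < p) (hpq : p < q)
    (h2 : l0 (Metric.closedBall 0 1)ᶜ = 0)
    (hM : ∀ v, ∫⁻ w, (edist w v) ^ (-q) ∂l0 ≤ M) (x0 : E n) {r : ℝ} (hr : 0 < r) (y : E n)
    (hy : y ≠ x0) :
    ∫⁻ x, ke p x y ∂(lam l0 x0 r) ≤
      (ENNReal.ofReal (1 / 2)) ^ (-p) * (M + 1) * (1 + ke p x0 y) := by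
  have ht : 0 < dist x0 y := dist_pos.2 hy.symm
  have hprob := lam_prob (l0 := l0) x0 r
  have key : ∫⁻ x, ke p x y ∂(lam l0 x0 r) ≤
      (ENNReal.ofReal (1 / 2 * dist x0 y)) ^ (-p) * (M + 1) := by
    simp only [ke_pos_eq hp]
    rcases le_or_gt (2 * r) (dist x0 y) with h | h
    · have h3 : ∀ᵐ x ∂(lam l0 x0 r), (edist x y) ^ (-p) ≤
          (ENNReal.ofReal (1 / 2 * dist x0 y)) ^ (-p) := by
        have h4 : ∀ᵐ x ∂(lam l0 x0 r), x ∈ Metric.closedBall x0 r := lam_supp h2 x0 hr
        filter_upwards [h4] with x hx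
        refine rpow_anti hp ?_
        rw [edist_dist]
        refine ENNReal.ofReal_le_ofReal ?_
        have := dist_triangle_left x0 y x
        rw [Metric.mem_closedBall] at hx
        linarith
      refine (lintegral_mono_ae h3).trans ?_
      rw [lintegral_const, measure_univ]
      exact mul_le_mul_right le_add_self _
    · refine (pot_bd (pot_bd' hp hpq.le hM) x0 hr y).trans ?_
      refine mul_le_mul_left ?_ _
      refine rpow_anti hp (ENNReal.ofReal_le_ofReal ?_)
      linarith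
  refine key.trans ?_
  rw [ENNReal.ofReal_mul (by norm_num),
    ENNReal.mul_rpow_of_ne_top ENNReal.ofReal_ne_top ENNReal.ofReal_ne_top]
  have h5 : (ENNReal.ofReal (dist x0 y)) ^ (-p) ≤ 1 + ke p x0 y := by
    rw [ke_pos_eq hp, edist_dist]
    exact le_add_self
  calc _ = (ENNReal.ofReal (1 / 2)) ^ (-p) * (M + 1) * (ENNReal.ofReal (dist x0 y)) ^ (-p) := by ring
    _ ≤ _ := mul_le_mul_right h5 _

lemma log_add (r : ℝ) (hr : 0 < r) (w v : E n) (x y : E n) (h : dist x y = r * dist w v) :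
    ke 0 x y ≤ ENNReal.ofReal |Real.log r| + ke 0 w v := by
  unfold ke kr
  rw [if_pos rfl, if_pos rfl]
  by_cases hwv : w = v
  · rw [if_pos hwv]; simp
  · have hd : 0 < dist w v := dist_pos.2 hwv
    have hxy : x ≠ y := by
      intro h'
      rw [h', dist_self] at h
      have : 0 < r * dist w v := by positivity
      linarith
    rw [if_neg hwv, if_neg hxy, h, Real.log_mul hr.ne' hd.ne',
      ← ENNReal.ofReal_add (abs_nonneg _) (abs_nonneg _)]
    refine ENNReal.ofReal_le_ofReal ?_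
    rw [abs_neg, abs_neg]
    exact abs_add_le _ _

lemma dom_zero [IsProbabilityMeasure l0] (hq : 0 < q)
    (h2 : l0 (Metric.closedBall 0 1)ᶜ = 0)
    (hM : ∀ v, ∫⁻ w, (edist w v) ^ (-q) ∂l0 ≤ M) (x0 : E n) {r : ℝ} (hr : 0 < r) (hr1 : r ≤ 1)
    (y : E n) (hy : y ≠ x0) :
    ∫⁻ x, ke 0 x y ∂(lam l0 x0 r) ≤
      ((ENNReal.ofReal (1 / q) + 1) * M + 6) * (1 + ke 0 x0 y) := by
  have ht : 0 < dist x0 y := dist_pos.2 hy.symm
  have hprob := lam_prob (l0 := l0) x0 r
  have hke : ke 0 x0 y = ENNReal.ofReal |Real.log (dist x0 y)| := by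
    unfold ke kr
    rw [if_pos rfl, if_neg hy.symm, abs_neg]
  have hlog2 : Real.log 2 ≤ 1 := by
    have := Real.log_le_sub_one_of_pos (show (0 : ℝ) < 2 by norm_num)
    linarith
  have key : ∫⁻ x, ke 0 x y ∂(lam l0 x0 r) ≤
      ke 0 x0 y + ((ENNReal.ofReal (1 / q) + 1) * M + 5) := by
    rcases le_or_gt (2 * r) (dist x0 y) with h | h
    · have h3 : ∀ᵐ x ∂(lam l0 x0 r), ke 0 x y ≤ ke 0 x0 y + 1 := by
        have h4 : ∀ᵐ x ∂(lam l0 x0 r), x ∈ Metric.closedBall x0 r := lam_supp h2 x0 hr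
        filter_upwards [h4] with x hx
        rw [Metric.mem_closedBall] at hx
        have h5 : 1 / 2 * dist x0 y ≤ dist x y := by
          have := dist_triangle_left x0 y x
          linarith
        have h6 : dist x y ≤ 2 * dist x0 y := by
          have := dist_triangle x x0 y
          linarith
        have h7 : 0 < dist x y := by linarith
        have h8 : ke 0 x y = ENNReal.ofReal |Real.log (dist x y)| := by
          unfold ke kr
          rw [if_pos rfl, if_neg (dist_pos.1 h7), abs_neg]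
        rw [h8, hke, ← ENNReal.ofReal_one, ← ENNReal.ofReal_add (abs_nonneg _) zero_le_one]
        refine ENNReal.ofReal_le_ofReal ?_
        have h9 := Real.log_le_log h7 h6
        rw [Real.log_mul (by norm_num) ht.ne'] at h9
        have h10 := Real.log_le_log (by positivity) h5
        rw [Real.log_mul (by norm_num) ht.ne', one_div, Real.log_inv] at h10
        have h11 := neg_abs_le (Real.log (dist x0 y))
        have h12 := le_abs_self (Real.log (dist x0 y))
        rw [abs_le]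
        constructor <;> linarith
      refine (lintegral_mono_ae h3).trans ?_
      rw [lintegral_const, measure_univ, mul_one]
      refine add_le_add le_rfl ?_
      refine le_trans ?_ le_add_self
      norm_num
    · rw [lint l0 x0 r (show Measurable fun x => ke 0 x y from
        (ke_meas 0).comp (measurable_id.prodMk measurable_const))]
      set v := r⁻¹ • (y - x0) with hv
      have hvn : ‖v‖ ≤ 2 := by
        rw [hv, norm_smul, Real.norm_of_nonneg (by positivity), ← dist_eq_norm, dist_comm,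
          inv_mul_le_iff₀ hr]
        linarith
      have h3 : ∀ᵐ w ∂l0, ke 0 (x0 + r • w) y ≤
          (ENNReal.ofReal |Real.log r| + 4) + (ENNReal.ofReal (1 / q) + 1) * (edist w v) ^ (-q) := by
        filter_upwards [ae_ball h2] with w hw
        refine (log_add r hr w v _ _ (dist_scale x0 hr w y)).trans ?_
        refine (add_le_add le_rfl (pw le_rfl hq w v)).trans ?_
        have h5 : edist w v ≤ 3 := by
          rw [edist_dist]
          have h6 : dist w v ≤ 3 := by
            rw [mem_closedBall_zero_iff] at hw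
            rw [dist_eq_norm]
            have := norm_sub_le w v
            linarith
          refine (ENNReal.ofReal_le_ofReal h6).trans (le_of_eq ?_)
          simp
        calc _ ≤ ENNReal.ofReal |Real.log r| +
              ((ENNReal.ofReal (1 / q) + 1) * edist w v ^ (-q) + 1 + 3) := by gcongr
          _ = ENNReal.ofReal |Real.log r| +
              ((ENNReal.ofReal (1 / q) + 1) * edist w v ^ (-q) + (1 + 3)) := by rw [add_assoc]
          _ = _ := by
            rw [show (1 : ℝ≥0∞) + 3 = 4 by norm_num]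
            ring
      refine (lintegral_mono_ae h3).trans ?_
      have hmw : Measurable (fun w : E n => (edist w v) ^ (-q)) :=
        (measurable_id.edist measurable_const).pow_const _
      rw [lintegral_add_left measurable_const, lintegral_const, measure_univ, mul_one,
        lintegral_const_mul _ hmw]
      have h6 : ENNReal.ofReal |Real.log r| ≤ ke 0 x0 y + 1 := by
        rw [hke, ← ENNReal.ofReal_one, ← ENNReal.ofReal_add (abs_nonneg _) zero_le_one]
        refine ENNReal.ofReal_le_ofReal ?_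
        rw [abs_of_nonpos (Real.log_nonpos hr.le hr1)]
        have h7 : 1 / 2 * dist x0 y ≤ r := by linarith
        have h8 := Real.log_le_log (by positivity) h7
        rw [Real.log_mul (by norm_num) ht.ne', one_div, Real.log_inv] at h8
        have h11 := neg_abs_le (Real.log (dist x0 y))
        linarith
      calc _ ≤ (ke 0 x0 y + 1 + 4) + (ENNReal.ofReal (1 / q) + 1) * M := by
            gcongr
            exact hM v
        _ = _ := by
            rw [add_assoc (ke 0 x0 y), show (1 : ℝ≥0∞) + 4 = 5 by norm_num]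
            ring
  refine key.trans ?_
  set A := (ENNReal.ofReal (1 / q) + 1) * M with hA
  calc ke 0 x0 y + (A + 5) ≤ (A + 6) * ke 0 x0 y + (A + 6) * 1 := by
        refine add_le_add ?_ ?_
        · calc ke 0 x0 y = 1 * ke 0 x0 y := (one_mul _).symm
            _ ≤ _ := mul_le_mul_left (le_trans (by norm_num) le_add_self) _
        · rw [mul_one]
          exact add_le_add le_rfl (by norm_num)
    _ = _ := by ring

lemma dom [IsProbabilityMeasure l0] {p : ℝ} (hp : 0 ≤ p) (hpq : p < q) (hMt : M ≠ ⊤)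
    (h2 : l0 (Metric.closedBall 0 1)ᶜ = 0)
    (hM : ∀ v, ∫⁻ w, (edist w v) ^ (-q) ∂l0 ≤ M) (x0 : E n) :
    ∃ C : ℝ≥0∞, C ≠ ⊤ ∧ ∀ r ∈ Ioc (0 : ℝ) 1, ∀ y, y ≠ x0 →
      ∫⁻ x, ke p x y ∂(lam l0 x0 r) ≤ C * (1 + ke p x0 y) := by
  rcases eq_or_lt_of_le hp with h0 | h0
  · subst h0
    refine ⟨(ENNReal.ofReal (1 / q) + 1) * M + 6, ?_, fun r hr y hy =>
      dom_zero hpq h2 hM x0 hr.1 hr.2 y hy⟩
    refine ENNReal.add_ne_top.2 ⟨ENNReal.mul_ne_top ?_ hMt, by simp⟩
    exact ENNReal.add_ne_top.2 ⟨ENNReal.ofReal_ne_top, by simp⟩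
  · refine ⟨(ENNReal.ofReal (1 / 2)) ^ (-p) * (M + 1), ?_, fun r hr y hy =>
      dom_pos h0 hpq h2 hM x0 hr.1 y hy⟩
    refine ENNReal.mul_ne_top ?_ (ENNReal.add_ne_top.2 ⟨hMt, by simp⟩)
    rw [ENNReal.ofReal_rpow_of_pos (by norm_num)]
    exact ENNReal.ofReal_ne_top

lemma kr_cont {p : ℝ} {x0 y : E n} (h : x0 ≠ y) : ContinuousAt (fun x => kr p x y) x0 := by
  have hd : dist x0 y ≠ 0 := dist_ne_zero.2 h
  unfold kr
  split_ifs
  · exact ((continuousAt_id.dist continuousAt_const).log hd).neg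
  · exact (continuousAt_id.dist continuousAt_const).rpow_const (Or.inl hd)

lemma bd_aux [IsProbabilityMeasure l0] {p : ℝ} (h2 : l0 (Metric.closedBall 0 1)ᶜ = 0)
    {x0 y : E n} (h : x0 ≠ y) :
    ∀ᶠ r in 𝓝[>] (0 : ℝ), ∀ᵐ w ∂l0, ‖kr p (x0 + r • w) y‖ ≤ |kr p x0 y| + 1 := by
  obtain ⟨δ, hδ, hδ'⟩ := Metric.continuousAt_iff.1 (kr_cont (p := p) h) 1 one_pos
  have h4 : Ioo (0 : ℝ) δ ∈ 𝓝[>] (0 : ℝ) := Ioo_mem_nhdsGT hδ
  filter_upwards [h4] with r hr
  filter_upwards [ae_ball h2] with w hw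
  have h5 := hδ' (lt_of_le_of_lt (ball_mem x0 hr.1 hw) hr.2)
  rw [Real.dist_eq] at h5
  rw [Real.norm_eq_abs]
  have h6 := abs_sub_abs_le_abs_sub (kr p (x0 + r • w) y) (kr p x0 y)
  linarith

lemma lim_aux {p : ℝ} {x0 y : E n} (h : x0 ≠ y) (w : E n) :
    Tendsto (fun r : ℝ => kr p (x0 + r • w) y) (𝓝[>] 0) (𝓝 (kr p x0 y)) := by
  have h4 : Tendsto (fun r : ℝ => x0 + r • w) (𝓝[>] 0) (𝓝 x0) := by
    have h5 : Continuous (fun r : ℝ => x0 + r • w) :=
      continuous_const.add (continuous_id.smul continuous_const)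
    have h6 := h5.tendsto 0
    simp only [zero_smul, add_zero] at h6
    exact h6.mono_left nhdsWithin_le_nhds
  exact (kr_cont h).tendsto.comp h4

lemma meas_aux (p : ℝ) (y : E n) : Measurable (fun x : E n => kr p x y) := by
  have h0 : Measurable (fun x : E n => (x, y)) := measurable_id.prodMk measurable_const
  have h := (kr_meas (n := n) p).comp h0
  exact h

lemma map_aux (p : ℝ) (x0 y : E n) (r : ℝ) :
    ∫ x, kr p x y ∂(lam l0 x0 r) = ∫ w, kr p (x0 + r • w) y ∂l0 := by
  unfold lam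
  rw [integral_map (aff_meas x0 r).aemeasurable (meas_aux p y).aestronglyMeasurable]

lemma G_lim [IsProbabilityMeasure l0] {p : ℝ} (h2 : l0 (Metric.closedBall 0 1)ᶜ = 0)
    {x0 y : E n} (h : x0 ≠ y) :
    Tendsto (fun r : ℝ => ∫ x, kr p x y ∂(lam l0 x0 r)) (𝓝[>] 0) (𝓝 (kr p x0 y)) := by
  simp only [map_aux]
  have h3 : ∫ _, kr p x0 y ∂l0 = kr p x0 y := by
    rw [integral_const, probReal_univ, one_smul]
  rw [← h3]
  refine tendsto_integral_filter_of_dominated_convergence (fun _ => |kr p x0 y| + 1) ?_ ?_ ?_ ?_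
  · refine Eventually.of_forall fun r => ?_
    have hc : Measurable (fun w : E n => kr p (x0 + r • w) y) := (meas_aux p y).comp (aff_meas x0 r)
    exact hc.aestronglyMeasurable
  · exact bd_aux h2 h
  · exact integrable_const _
  · exact Eventually.of_forall fun w => lim_aux h w

end

theorem avg_proof : S_avg := by
  intro n p q hp hpq hqn ν hν hνs x0 hfin
  have hq : 0 < q := lt_of_le_of_lt hp hpq
  obtain ⟨l0, M, hprob, h2, hMt, hM⟩ := base (n := n) hq hqn
  set s : ℝ := (p + q) / 2 with hs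
  have hps : p < s := by rw [hs]; linarith
  have hsq : s ≤ q := by rw [hs]; linarith
  have hs0 : 0 < s := lt_of_le_of_lt hp hps
  set C' : ℝ≥0∞ := (ENNReal.ofReal (1 / s) + 1) * (M + 1) + 3 with hC'
  have hC't : C' ≠ ⊤ := by
    refine ENNReal.add_ne_top.2 ⟨ENNReal.mul_ne_top ?_ ?_, by simp⟩
    · exact ENNReal.add_ne_top.2 ⟨ENNReal.ofReal_ne_top, by simp⟩
    · exact ENNReal.add_ne_top.2 ⟨hMt, by simp⟩
  refine ⟨C'.toReal + 1, lam l0 x0, by positivity, ?_, ?_⟩
  · intro r hr
    have hlp := lam_prob (l0 := l0) x0 r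
    refine ⟨hlp, lam_supp h2 x0 hr.1, ?_, ?_⟩
    · have hB : (ENNReal.ofReal r) ^ (-q) * M ≠ ⊤ := by
        refine ENNReal.mul_ne_top ?_ hMt
        rw [ENNReal.ofReal_rpow_of_pos hr.1]
        exact ENNReal.ofReal_ne_top
      refine ⟨((ENNReal.ofReal r) ^ (-q) * M).toNNReal, fun x => ?_⟩
      rw [ENNReal.coe_toNNReal hB]
      refine le_trans (le_of_eq ?_) (pot_bd hM x0 hr.1 x)
      unfold Pot
      refine lintegral_congr fun y => ?_
      rw [edist_comm]
    · have h3 : ∀ᵐ x ∂(lam l0 x0 r), ‖U p (lam l0 x0 r) x‖ ≤ C'.toReal * r ^ (-s) := by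
        have h4 : ∀ᵐ x ∂(lam l0 x0 r), x ∈ Metric.closedBall x0 r := lam_supp h2 x0 hr.1
        filter_upwards [h4] with x hx
        have h5 : ‖U p (lam l0 x0 r) x‖ₑ ≤ C' * (ENNReal.ofReal r) ^ (-s) := by
          unfold U
          refine (enorm_integral_le_lintegral_enorm _).trans ?_
          refine (lintegral_mono fun y => kr_le_ke p x y).trans ?_
          exact energy_bd hp hps hsq h2 hM x0 hr.1 hr.2 x hx
        rw [ENNReal.ofReal_rpow_of_pos hr.1] at h5
        have h6 := ENNReal.toReal_mono (ENNReal.mul_ne_top hC't ENNReal.ofReal_ne_top) h5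
        rw [ENNReal.toReal_mul, ENNReal.toReal_ofReal (Real.rpow_nonneg hr.1.le _),
          toReal_enorm] at h6
        exact h6
      have h7 := norm_integral_le_of_norm_le_const h3
      rw [probReal_univ, mul_one] at h7
      have h8 : En p (lam l0 x0 r) (lam l0 x0 r) ≤ C'.toReal * r ^ (-s) := by
        unfold En
        exact (le_abs_self _).trans h7
      have h9 : 0 ≤ r ^ (-s) := Real.rpow_nonneg hr.1.le _
      have h10 : C'.toReal * r ^ (-s) ≤ (C'.toReal + 1) * r ^ (-s) := by nlinarith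
      exact h8.trans h10
  · intro ε hε
    obtain ⟨C, hCt, hC⟩ := dom (l0 := l0) hp hpq hMt h2 hM x0
    have hae : ∀ᵐ y ∂ν, y ≠ x0 := by
      have hm : AEMeasurable (fun y => ke p x0 y) ν :=
        ((ke_meas p).comp (measurable_const.prodMk measurable_id)).aemeasurable
      filter_upwards [ae_lt_top' hm hfin.ne] with y hy h
      rw [h] at hy
      unfold ke at hy
      rw [if_pos rfl] at hy
      exact lt_irrefl _ hy
    have hkem : Measurable (fun y => ke p x0 y) :=
      (ke_meas p).comp (measurable_const.prodMk measurable_id)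
    have hkem1 : Measurable (fun y => 1 + ke p x0 y) := measurable_const.add hkem
    have hkem2 : Measurable (fun y => C * (1 + ke p x0 y)) := measurable_const.mul hkem1
    have hCfin : ∫⁻ y, C * (1 + ke p x0 y) ∂ν ≠ ⊤ := by
      rw [lintegral_const_mul _ hkem1, lintegral_add_left measurable_const,
        lintegral_const, measure_univ, mul_one]
      exact ENNReal.mul_ne_top hCt (ENNReal.add_ne_top.2 ⟨by simp, hfin.ne⟩)
    have hFin : ∀ r ∈ Ioc (0 : ℝ) 1, FinEn p (lam l0 x0 r) ν := by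
      intro r hr
      have hlp := lam_prob (l0 := l0) x0 r
      unfold FinEn
      rw [lintegral_lintegral_swap (ke_meas p).aemeasurable]
      refine lt_of_le_of_lt (lintegral_mono_ae ?_) (lt_top_iff_ne_top.2 hCfin)
      filter_upwards [hae] with y hy
      exact hC r hr y hy
    have hEn : ∀ r ∈ Ioc (0 : ℝ) 1, En p (lam l0 x0 r) ν =
        ∫ y, (∫ x, kr p x y ∂(lam l0 x0 r)) ∂ν := by
      intro r hr
      have hlp := lam_prob (l0 := l0) x0 r
      unfold En U
      have hkm : Measurable (Function.uncurry (fun x y : E n => kr p x y)) := kr_meas p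
      refine integral_integral_swap (f := fun x y : E n => kr p x y)
        ⟨hkm.aestronglyMeasurable, ?_⟩
      unfold HasFiniteIntegral
      rw [lintegral_prod _ hkm.enorm.aemeasurable]
      refine lt_of_le_of_lt ?_ (hFin r hr)
      exact lintegral_mono fun x => lintegral_mono fun y => kr_le_ke p x y
    have hIoc : Ioc (0 : ℝ) 1 ∈ 𝓝[>] (0 : ℝ) := Ioc_mem_nhdsGT one_pos
    have hlim : Tendsto (fun r : ℝ => ∫ y, (∫ x, kr p x y ∂(lam l0 x0 r)) ∂ν) (𝓝[>] 0)
        (𝓝 (∫ y, kr p x0 y ∂ν)) := by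
      refine tendsto_integral_filter_of_dominated_convergence
        (fun y => (C * (1 + ke p x0 y)).toReal) ?_ ?_ ?_ ?_
      · refine Eventually.of_forall fun r => ?_
        have hlp := lam_prob (l0 := l0) x0 r
        exact ((kr_meas p).stronglyMeasurable.integral_prod_left'
          (μ := lam l0 x0 r)).aestronglyMeasurable
      · filter_upwards [hIoc] with r hr
        have hae2 : ∀ᵐ y ∂ν, C * (1 + ke p x0 y) < ⊤ :=
          ae_lt_top hkem2 hCfin
        filter_upwards [hae, hae2] with y hy hy2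
        have h5 : ‖∫ x, kr p x y ∂(lam l0 x0 r)‖ₑ ≤ C * (1 + ke p x0 y) := by
          refine (enorm_integral_le_lintegral_enorm _).trans ?_
          refine (lintegral_mono fun x => kr_le_ke p x y).trans ?_
          exact hC r hr y hy
        have h6 := ENNReal.toReal_mono hy2.ne h5
        rwa [toReal_enorm] at h6
      · exact integrable_toReal_of_lintegral_ne_top hkem2.aemeasurable hCfin
      · filter_upwards [hae] with y hy
        exact G_lim h2 (fun h => hy h.symm)
    have hev : ∀ᶠ r in 𝓝[>] (0 : ℝ), (∫ y, (∫ x, kr p x y ∂(lam l0 x0 r)) ∂ν) <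
        (∫ y, kr p x0 y ∂ν) + ε := hlim.eventually (gt_mem_nhds (by linarith))
    obtain ⟨r1, hr1, hsub⟩ := mem_nhdsGT_iff_exists_Ioo_subset.1 (Filter.inter_mem hev hIoc)
    refine ⟨r1, hr1, fun r hr => ?_⟩
    obtain ⟨h3, h4⟩ := hsub hr
    refine ⟨hFin r h4, ?_⟩
    rw [hEn r h4]
    exact le_of_lt h3

end Pool.Agent.R577.RC
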